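import Pool.Agent.W886.PM.Stm0

/-!
# The number of branching programs of a given size
-/

set_option autoImplicit false

namespace Pool.Agent.W225.PM

open Pool.Agent.NPC Pool.Agent.H620R2.Gauge Pool.Agent.H943R6.MC Pool.Agent.H622R2.Ckt Finset
open Pool.Agent.W886.PM

/-- the letters: items of a question, numbers of nodes, instructions -/
abbrev Tok : Type := (Bool ⊕ ℕ) ⊕ (ℕ ⊕ Fin 4)

/-- the nodes -/
abbrev Nd : Type := Lbl × ℕ × ℕ

/-- the variable of the first item -/
def varOf : List (Bool ⊕ ℕ) → ℕ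
  | [] => 0
  | (.inl _) :: _ => 0
  | (.inr i) :: _ => i

/-- one step of the decoding -/
def step (p : List (Bool ⊕ ℕ) × List ℕ × BP) : Tok → List (Bool ⊕ ℕ) × List ℕ × BP
  | .inl w => (p.1 ++ [w], p.2.1, p.2.2)
  | .inr (.inl s) => (p.1, p.2.1 ++ [s], p.2.2)
  | .inr (.inr 0) => ([], [], p.2.2 ++ [(.inl (varOf p.1), p.2.1.getD 0 0, p.2.1.getD 1 0)])
  | .inr (.inr 1) => ([], [], p.2.2 ++ [(.inr p.1, p.2.1.getD 0 0, p.2.1.getD 1 0)])
  | .inr (.inr _) => p

/-- decoding of a word -/
def decode (w : List Tok) : BP := (w.foldl step ([], [], [])).2.2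

/-- the word of a node -/
def enc : Nd → List Tok
  | (.inl i, a, b) => [.inl (.inr i), .inr (.inl a), .inr (.inl b), .inr (.inr 0)]
  | (.inr l, a, b) => l.map Sum.inl ++ [.inr (.inl a), .inr (.inl b), .inr (.inr 1)]

theorem foldl_inl (l : List (Bool ⊕ ℕ)) (nu : List ℕ) (P : BP) : ∀ it : List (Bool ⊕ ℕ),
    (l.map (Sum.inl : Bool ⊕ ℕ → Tok)).foldl step (it, nu, P) = (it ++ l, nu, P) := by
  induction l with
  | nil => intro it; simp
  | cons w l ih =>
    intro it
    rw [List.map_cons, List.foldl_cons]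
    change (l.map (Sum.inl : Bool ⊕ ℕ → Tok)).foldl step (it ++ [w], nu, P) = _
    rw [ih, List.append_assoc]
    rfl

theorem foldl_enc (q : Nd) (P : BP) :
    (enc q).foldl step ([], [], P) = ([], [], P ++ [q]) := by
  obtain ⟨l, a, b⟩ := q
  cases l with
  | inl i => rfl
  | inr l =>
    unfold enc
    rw [List.foldl_append, foldl_inl]
    rfl

theorem foldl_encs (Q : BP) : ∀ P : BP,
    (Q.flatMap enc).foldl step ([], [], P) = ([], [], P ++ Q) := by
  induction Q with
  | nil => intro P; simp
  | cons q Q ih =>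
    intro P
    rw [List.flatMap_cons, List.foldl_append, foldl_enc, ih, List.append_assoc]
    rfl

theorem foldl_nop (p : List (Bool ⊕ ℕ) × List ℕ × BP) (t : ℕ) :
    (List.replicate t (Sum.inr (Sum.inr 3) : Tok)).foldl step p = p := by
  induction t with
  | zero => rfl
  | succ t ih =>
    rw [List.replicate_succ, List.foldl_cons]
    exact ih

/-- the word of a program -/
def encP (P : BP) (t : ℕ) : List Tok :=
  P.flatMap enc ++ List.replicate t (Sum.inr (Sum.inr 3))

theorem decode_encP (P : BP) (t : ℕ) : decode (encP P t) = P := by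
  unfold decode encP
  rw [List.foldl_append, foldl_encs, foldl_nop]
  rfl

theorem length_enc_le (q : Nd) : (enc q).length ≤ 4 + lsz q.1 := by
  obtain ⟨l, a, b⟩ := q
  cases l with
  | inl i => simp [enc, lsz]
  | inr l =>
    simp only [enc, lsz, List.length_append, List.length_map, List.length_cons, List.length_nil]
    omega

theorem length_encs_le (P : BP) :
    (P.flatMap enc).length ≤ 4 * P.length + (P.map (fun q => lsz q.1)).sum := by
  induction P with
  | nil => simp
  | cons q P ih =>
    rw [List.flatMap_cons, List.length_append, List.map_cons, List.sum_cons, List.length_cons]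
    have := length_enc_le q
    omega

/-- the letters for programs with `n` variables and at most `k` nodes -/
abbrev Sy (n k : ℕ) : Type := (Bool ⊕ Fin n) ⊕ (Fin (k + 2) ⊕ Fin 4)

/-- from letters to letters -/
def toTok {n k : ℕ} : Sy n k → Tok :=
  Sum.map (Sum.map id Fin.val) (Sum.map Fin.val id)

theorem enc_range (n k : ℕ) (q : Nd) (h1 : LOk n q.1) (h2 : q.2.1 < k + 2) (h3 : q.2.2 < k + 2)
    (y : Tok) (hy : y ∈ enc q) : y ∈ Set.range (toTok : Sy n k → Tok) := by
  have hi : ∀ i < n, (Sum.inl (Sum.inr i) : Tok) ∈ Set.range (toTok : Sy n k → Tok) :=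
    fun i h => ⟨Sum.inl (Sum.inr ⟨i, h⟩), rfl⟩
  have hb : ∀ b : Bool, (Sum.inl (Sum.inl b) : Tok) ∈ Set.range (toTok : Sy n k → Tok) :=
    fun b => ⟨Sum.inl (Sum.inl b), rfl⟩
  have hn : ∀ s < k + 2, (Sum.inr (Sum.inl s) : Tok) ∈ Set.range (toTok : Sy n k → Tok) :=
    fun s h => ⟨Sum.inr (Sum.inl ⟨s, h⟩), rfl⟩
  have hc : ∀ c : Fin 4, (Sum.inr (Sum.inr c) : Tok) ∈ Set.range (toTok : Sy n k → Tok) :=
    fun c => ⟨Sum.inr (Sum.inr c), rfl⟩
  obtain ⟨l, a, b⟩ := q
  cases l with
  | inl i =>
    simp only [enc, List.mem_cons, List.not_mem_nil, or_false] at hy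
    rcases hy with rfl | rfl | rfl | rfl
    · exact hi _ h1
    · exact hn _ h2
    · exact hn _ h3
    · exact hc _
  | inr l =>
    simp only [enc, List.mem_append, List.mem_map, List.mem_cons, List.not_mem_nil,
      or_false] at hy
    rcases hy with ⟨w, hw, rfl⟩ | rfl | rfl | rfl
    · rcases w with w | w
      · exact hb _
      · exact hi _ (h1 _ hw)
    · exact hn _ h2
    · exact hn _ h3
    · exact hc _

theorem encs_range (n k : ℕ) (P : BP) (h : WF n P) (hk : P.length ≤ k + 1) (y : Tok)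
    (hy : y ∈ P.flatMap enc) : y ∈ Set.range (toTok : Sy n k → Tok) := by
  induction P with
  | nil => simp at hy
  | cons q P ih =>
    rw [List.length_cons] at hk
    obtain ⟨h1, h2, h3, h4⟩ := h
    rw [List.flatMap_cons, List.mem_append] at hy
    rcases hy with hy | hy
    · exact enc_range n k q h1 (by omega) (by omega) y hy
    · exact ih h4 (by omega) hy

theorem exists_programs (n k : ℕ) : ∃ F : Finset BP, F.card ≤ nC n k ∧
    ∀ P : BP, WF n P → bsize P ≤ k + 2 → P ∈ F := by
  classical
  refine ⟨(Finset.univ : Finset (Fin (4 * k + 4) → Sy n k)).image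
    (fun w => decode ((List.ofFn w).map toTok)), ?_, ?_⟩
  · refine card_image_le.trans (le_of_eq ?_)
    rw [card_univ, Fintype.card_pi]
    simp only [Finset.prod_const, card_univ, Fintype.card_sum, Fintype.card_fin, Fintype.card_bool]
    unfold nC
    congr 1
    omega
  · intro P hP hs
    unfold bsize at hs
    have hlen : (P.flatMap enc).length ≤ 4 * k := by
      refine (length_encs_le _).trans ?_
      omega
    obtain ⟨t, ht⟩ : ∃ t, (encP P t).length = 4 * k + 4 := by
      refine ⟨4 * k + 4 - (P.flatMap enc).length, ?_⟩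
      unfold encP
      rw [List.length_append, List.length_replicate]
      omega
    have hr : encP P t ∈ Set.range (List.map (toTok : Sy n k → Tok)) := by
      rw [Set.range_list_map]
      intro y hy
      unfold encP at hy
      rw [List.mem_append] at hy
      rcases hy with hy | hy
      · exact encs_range n k P hP (by omega) y hy
      · rw [List.mem_replicate] at hy
        rw [hy.2]
        exact ⟨Sum.inr (Sum.inr 3), rfl⟩
    obtain ⟨w, hw⟩ := hr
    have hwl : w.length = 4 * k + 4 := by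
      rw [← ht, ← hw, List.length_map]
    refine mem_image.2 ⟨fun i => w.get (i.cast hwl.symm), mem_univ _, ?_⟩
    have h1 : List.ofFn (fun i : Fin (4 * k + 4) => w.get (i.cast hwl.symm)) = w := by
      apply List.ext_getElem
      · rw [List.length_ofFn, hwl]
      · intro i h1 h2
        rw [List.getElem_ofFn]
        rfl
    change decode ((List.ofFn (fun i : Fin (4 * k + 4) => w.get (i.cast hwl.symm))).map toTok) = P
    rw [h1, hw, decode_encP]

/-- STATEMENT S_CNT -/
theorem task : Pool.Agent.W886.PM.S_CNT := by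
  classical
  intro A j hj
  obtain ⟨F, hF1, hF2⟩ := exists_programs (2 * j) (H943R6.MC.sz j)
  have hsub : univ.filter (fun T : Fin (2 ^ (2 * j)) → Bool => ∃ P : BP, WF (2 * j) P ∧
      bsize P ≤ H943R6.MC.sz j + 2 ∧ table (2 * j) (bout A P) = List.ofFn T) ⊆
      F.image (fun P (i : Fin (2 ^ (2 * j))) => (table (2 * j) (bout A P)).getD i.1 false) := by
    intro T hT
    rw [mem_filter] at hT
    obtain ⟨P, hP, hs, h6⟩ := hT.2
    refine mem_image.2 ⟨P, hF2 P hP hs, ?_⟩
    funext i
    rw [h6, List.getD_eq_getElem _ _ (by rw [List.length_ofFn]; exact i.2), List.getElem_ofFn]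
  have h1 : 4 * (univ.filter (fun T : Fin (2 ^ (2 * j)) → Bool => ∃ P : BP, WF (2 * j) P ∧
      bsize P ≤ H943R6.MC.sz j + 2 ∧ table (2 * j) (bout A P) = List.ofFn T)).card ≤
      2 ^ 2 ^ (2 * j) := by
    refine le_trans ?_ (HRD.nC_le hj)
    exact Nat.mul_le_mul_left _ ((card_le_card hsub).trans (card_image_le.trans hF1))
  have h2 : (4 : ℝ) * ((univ.filter (fun T : Fin (2 ^ (2 * j)) → Bool => ∃ P : BP, WF (2 * j) P ∧
      bsize P ≤ H943R6.MC.sz j + 2 ∧ table (2 * j) (bout A P) = List.ofFn T)).card : ℝ) ≤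
      2 ^ 2 ^ (2 * j) := by exact_mod_cast h1
  convert (by linarith : ((univ.filter (fun T : Fin (2 ^ (2 * j)) → Bool => ∃ P : BP, WF (2 * j) P ∧
      bsize P ≤ H943R6.MC.sz j + 2 ∧ table (2 * j) (bout A P) = List.ofFn T)).card : ℝ) ≤
      (1 / 4 : ℝ) * 2 ^ 2 ^ (2 * j)) using 3

end Pool.Agent.W225.PM
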